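import Mathlib

/-! Counting pairs of residue classes. -/

set_option autoImplicit false

namespace Pool.Agent.V11235.SD

open Finset

/-- `b` is a unit and `a - θ b` is `p` times a unit -/
def Good (p : ℕ) (θ a b : ZMod (p ^ 2)) : Prop :=
  IsUnit b ∧ ∃ w : ℕ, 0 < w ∧ w < p ∧ a - θ * b = (p * w : ℕ)

theorem card_good (p : ℕ) (hp : p.Prime) (θ : ZMod (p ^ 2)) :
    p * (p - 1) * (p - 1) ≤ Set.ncard {x : ZMod (p ^ 2) × ZMod (p ^ 2) | Good p θ x.1 x.2} := by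
  classical
  have hne : NeZero (p ^ 2) := ⟨pow_ne_zero _ hp.ne_zero⟩
  let f : (ZMod (p ^ 2))ˣ × Fin (p - 1) → ZMod (p ^ 2) × ZMod (p ^ 2) := fun x =>
    (θ * x.1 + ((p * (x.2 + 1) : ℕ) : ZMod (p ^ 2)), x.1)
  have hf : Function.Injective f := by
    rintro ⟨u, w⟩ ⟨u', w'⟩ h
    have h1 := congrArg Prod.fst h
    have h2 := congrArg Prod.snd h
    simp only [f] at h1 h2
    have hu : u = u' := Units.ext h2
    subst hu
    rw [add_right_inj, ZMod.natCast_eq_natCast_iff'] at h1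
    have hw : p * (w + 1 : ℕ) < p ^ 2 := by
      rw [pow_two]
      exact Nat.mul_lt_mul_of_pos_left (by have := w.2; omega) hp.pos
    have hw' : p * (w' + 1 : ℕ) < p ^ 2 := by
      rw [pow_two]
      exact Nat.mul_lt_mul_of_pos_left (by have := w'.2; omega) hp.pos
    rw [Nat.mod_eq_of_lt hw, Nat.mod_eq_of_lt hw'] at h1
    have h3 := Nat.eq_of_mul_eq_mul_left hp.pos h1
    have h4 : w = w' := Fin.ext (by omega)
    rw [h4]
  have hcard : Nat.card ((ZMod (p ^ 2))ˣ × Fin (p - 1)) = p * (p - 1) * (p - 1) := by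
    rw [Nat.card_prod, Nat.card_eq_fintype_card, ZMod.card_units_eq_totient,
      Nat.totient_prime_pow hp (by norm_num), Nat.card_eq_fintype_card, Fintype.card_fin]
    norm_num
  rw [← hcard, ← Set.ncard_univ, ← Set.ncard_image_of_injective _ hf]
  refine Set.ncard_le_ncard ?_ (Set.toFinite _)
  rintro _ ⟨⟨u, w⟩, -, rfl⟩
  refine ⟨u.isUnit, w + 1, by omega, by have := w.2; omega, ?_⟩
  simp only [f]
  ring

theorem card_bad (p : ℕ) (hp : p.Prime) (θ : ZMod (p ^ 2)) :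
    (Set.ncard {x : ZMod (p ^ 2) × ZMod (p ^ 2) | ¬ Good p θ x.1 x.2} : ℝ) ≤
      (1 - 1 / (4 * p)) * ((p : ℝ) ^ 2) ^ 2 := by
  classical
  have hne : NeZero (p ^ 2) := ⟨pow_ne_zero _ hp.ne_zero⟩
  have h1 := card_good p hp θ
  have h2 : {x : ZMod (p ^ 2) × ZMod (p ^ 2) | ¬ Good p θ x.1 x.2} =
      {x : ZMod (p ^ 2) × ZMod (p ^ 2) | Good p θ x.1 x.2}ᶜ := rfl
  have h3 := Set.ncard_add_ncard_compl {x : ZMod (p ^ 2) × ZMod (p ^ 2) | Good p θ x.1 x.2}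
  rw [← h2, Nat.card_prod, Nat.card_zmod] at h3
  have h4 : (Set.ncard {x : ZMod (p ^ 2) × ZMod (p ^ 2) | Good p θ x.1 x.2} : ℝ) +
    (Set.ncard {x : ZMod (p ^ 2) × ZMod (p ^ 2) | ¬ Good p θ x.1 x.2} : ℝ) =
      (p : ℝ) ^ 2 * (p : ℝ) ^ 2 := by exact_mod_cast h3
  have h5 : (p : ℝ) * (p - 1) * (p - 1) ≤
      (Set.ncard {x : ZMod (p ^ 2) × ZMod (p ^ 2) | Good p θ x.1 x.2} : ℝ) := by
    have h6 : ((p * (p - 1) * (p - 1) : ℕ) : ℝ) ≤
      (Set.ncard {x : ZMod (p ^ 2) × ZMod (p ^ 2) | Good p θ x.1 x.2} : ℝ) := by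
      exact_mod_cast h1
    rwa [Nat.cast_mul, Nat.cast_mul, Nat.cast_sub hp.one_lt.le, Nat.cast_one] at h6
  have hp2 : (2 : ℝ) ≤ p := by exact_mod_cast hp.two_le
  have h7 : (1 - 1 / (4 * (p : ℝ))) * ((p : ℝ) ^ 2) ^ 2 = (p : ℝ) ^ 4 - (p : ℝ) ^ 3 / 4 := by
    field_simp
  rw [h7]
  nlinarith [mul_nonneg (by linarith : (0 : ℝ) ≤ p)
    (mul_nonneg (by linarith : (0 : ℝ) ≤ p - 2) (by linarith : (0 : ℝ) ≤ 3 * p - 2))]

/-- counting the classes of the pairs that are not good for any `p ∈ T` -/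
theorem count_pairs {R : Type} [CommRing R] (T : Finset ℕ) (hT : ∀ p ∈ T, p.Prime)
    (χ : ∀ p : T, R →+* ZMod (p.1 ^ 2)) (θ : ∀ p : T, ZMod (p.1 ^ 2)) (E : Set (R × R))
    (hE : ∀ x ∈ E, ∀ p : T, ¬ Good p.1 (θ p) (χ p x.1) (χ p x.2)) :
    ∃ I : Ideal R, Finite (R ⧸ I) ∧
      (Set.ncard ((fun x : R × R => (Ideal.Quotient.mk I x.1, Ideal.Quotient.mk I x.2)) '' E) : ℝ) ≤
        (∏ p ∈ T, (1 - 1 / (4 * (p : ℝ)))) * (Nat.card (R ⧸ I) : ℝ) ^ 2 := by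
  classical
  have hne : ∀ p : T, NeZero (p.1 ^ 2) := fun p => ⟨pow_ne_zero _ (hT p.1 p.2).ne_zero⟩
  let Χ : R →+* (∀ p : T, ZMod (p.1 ^ 2)) := RingHom.pi fun p => χ p
  have hcop : Pairwise fun p q : T => Nat.Coprime (p.1 ^ 2) (q.1 ^ 2) := by
    intro p q hpq
    exact Nat.Coprime.pow 2 2 ((Nat.coprime_primes (hT p.1 p.2) (hT q.1 q.2)).2
      (fun h => hpq (Subtype.ext h)))
  let e := ZMod.prodEquivPi (fun p : T => p.1 ^ 2) hcop
  have hsurj : Function.Surjective Χ := by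
    intro y
    obtain ⟨z, hz⟩ := e.surjective y
    obtain ⟨n, rfl⟩ := ZMod.intCast_surjective z
    exact ⟨(n : R), by rw [← hz, map_intCast, map_intCast]⟩
  let q := RingHom.quotientKerEquivOfSurjective hsurj
  have hq : ∀ r, q (Ideal.Quotient.mk _ r) = Χ r := fun r =>
    RingHom.quotientKerEquivOfSurjective_apply_mk hsurj r
  have hfin : Finite (R ⧸ RingHom.ker Χ) := Finite.of_equiv _ q.toEquiv.symm
  have hcard : (Nat.card (R ⧸ RingHom.ker Χ) : ℝ) = ∏ p ∈ T, (p : ℝ) ^ 2 := by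
    rw [Nat.card_congr q.toEquiv, Nat.card_pi, ← Finset.prod_coe_sort T]
    push_cast
    refine Finset.prod_congr rfl fun p _ => ?_
    rw [Nat.card_zmod]
    push_cast
    rfl
  refine ⟨RingHom.ker Χ, hfin, ?_⟩
  set A := (fun x : R × R => (Ideal.Quotient.mk (RingHom.ker Χ) x.1,
    Ideal.Quotient.mk (RingHom.ker Χ) x.2)) '' E with hA
  let f : (R ⧸ RingHom.ker Χ) × (R ⧸ RingHom.ker Χ) →
    (∀ p : T, ZMod (p.1 ^ 2) × ZMod (p.1 ^ 2)) := fun x p => (q x.1 p, q x.2 p)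
  have hf : Function.Injective f := by
    rintro ⟨a, b⟩ ⟨a', b'⟩ h
    have h1 : ∀ p, q a p = q a' p := fun p => congrArg Prod.fst (congrFun h p)
    have h2 : ∀ p, q b p = q b' p := fun p => congrArg Prod.snd (congrFun h p)
    rw [q.injective (funext h1), q.injective (funext h2)]
  have h1 : A.ncard ≤ ∏ p : T, Set.ncard {x : ZMod (p.1 ^ 2) × ZMod (p.1 ^ 2) |
      ¬ Good p.1 (θ p) x.1 x.2} := by
    rw [← Set.ncard_image_of_injective A hf]
    have h2 : (∏ p : T, Set.ncard {x : ZMod (p.1 ^ 2) × ZMod (p.1 ^ 2) |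
      ¬ Good p.1 (θ p) x.1 x.2}) = (Set.univ.pi fun p : T => {x : ZMod (p.1 ^ 2) × ZMod (p.1 ^ 2) |
      ¬ Good p.1 (θ p) x.1 x.2}).ncard := by
      rw [← Nat.card_coe_set_eq, Nat.card_congr (Equiv.Set.univPi _), Nat.card_pi]
      rfl
    rw [h2]
    refine Set.ncard_le_ncard ?_ (Set.toFinite _)
    rintro _ ⟨_, ⟨x, hx, rfl⟩, rfl⟩ p -
    have h3 := hE x hx p
    change ¬ Good p.1 (θ p) (q (Ideal.Quotient.mk _ x.1) p) (q (Ideal.Quotient.mk _ x.2) p)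
    rw [hq, hq]
    exact h3
  have h2 : (A.ncard : ℝ) ≤ ∏ p : T, (Set.ncard {x : ZMod (p.1 ^ 2) × ZMod (p.1 ^ 2) |
      ¬ Good p.1 (θ p) x.1 x.2} : ℝ) := by exact_mod_cast h1
  refine h2.trans ?_
  rw [hcard, ← Finset.prod_pow, ← Finset.prod_mul_distrib, ← Finset.prod_coe_sort T]
  exact Finset.prod_le_prod (fun _ _ => by positivity) fun p _ => card_bad p.1 (hT p.1 p.2) _

/-- small products -/
theorem small_prod (S : Set ℕ) (hS : ∀ p ∈ S, p.Prime)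
    (hdiv : ∀ B : ℝ, ∃ N : ℕ, B ≤ ∑ n ∈ Finset.range N,
      Set.indicator S (fun _ => (1 : ℝ)) n * (1 / ((n : ℝ) + 1))) (ε : ℝ) (hε : 0 < ε) :
    ∃ T : Finset ℕ, (∀ p ∈ T, p ∈ S) ∧ ∏ p ∈ T, (1 - 1 / (4 * (p : ℝ))) < ε := by
  classical
  obtain ⟨N, hN⟩ := hdiv (4 * (1 - Real.log ε))
  refine ⟨(Finset.range N).filter (· ∈ S), fun p hp => (Finset.mem_filter.1 hp).2, ?_⟩
  have h1 : ∀ p ∈ (Finset.range N).filter (· ∈ S),
      (1 - 1 / (4 * (p : ℝ))) ≤ Real.exp (-(1 / 4 * (1 / ((p : ℝ) + 1)))) := by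
    intro p hp
    have hpp := hS p (Finset.mem_filter.1 hp).2
    have hp0 : (0 : ℝ) < p := by exact_mod_cast hpp.pos
    have h2 := Real.add_one_le_exp (-(1 / 4 * (1 / ((p : ℝ) + 1))))
    have h3 : 1 / 4 * (1 / ((p : ℝ) + 1)) ≤ 1 / (4 * p) := by
      rw [one_div_mul_one_div]
      apply one_div_le_one_div_of_le
      · positivity
      · linarith
    linarith
  have h2 : ∀ p ∈ (Finset.range N).filter (· ∈ S), 0 ≤ (1 - 1 / (4 * (p : ℝ))) := by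
    intro p hp
    have hpp := hS p (Finset.mem_filter.1 hp).2
    have hp0 : (1 : ℝ) ≤ p := by exact_mod_cast hpp.one_lt.le
    rw [sub_nonneg, div_le_one (by positivity)]
    linarith
  calc ∏ p ∈ (Finset.range N).filter (· ∈ S), (1 - 1 / (4 * (p : ℝ)))
      ≤ ∏ p ∈ (Finset.range N).filter (· ∈ S), Real.exp (-(1 / 4 * (1 / ((p : ℝ) + 1)))) :=
        Finset.prod_le_prod h2 h1
    _ = Real.exp (-(1 / 4 * ∑ p ∈ (Finset.range N).filter (· ∈ S), (1 / ((p : ℝ) + 1)))) := by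
        rw [← Real.exp_sum, Finset.sum_neg_distrib, ← Finset.mul_sum]
    _ ≤ Real.exp (-(1 - Real.log ε)) := by
        apply Real.exp_le_exp.2
        have h3 : ∑ p ∈ (Finset.range N).filter (· ∈ S), (1 / ((p : ℝ) + 1)) =
            ∑ n ∈ Finset.range N, Set.indicator S (fun _ => (1 : ℝ)) n * (1 / ((n : ℝ) + 1)) := by
          rw [Finset.sum_filter]
          refine Finset.sum_congr rfl fun n _ => ?_
          by_cases h : n ∈ S
          · simp [h]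
          · simp [h]
        rw [h3]
        linarith
    _ < ε := by
        rw [neg_sub, Real.exp_sub, Real.exp_log hε]
        rw [div_lt_iff₀ (Real.exp_pos 1)]
        nlinarith [Real.exp_one_gt_d9]

end Pool.Agent.V11235.SD
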