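import Pool.Agent.V11235.SD.Cnt
import Pool.Agent.Helper602.MK.J3
import Mathlib.NumberTheory.Chebyshev

/-! Almost all prime numbers are close to `Θ p` for some `p`. -/

set_option autoImplicit false

namespace Pool.Agent.V11235.SD

open Finset Filter Topology

/-- copied from `Pool.Agent.TH924.PC.pi_lower` -/
lemma pi_lower {N : ℕ} (hN : 8 ≤ N) : (N : ℝ) / (4 * Real.log N) ≤ Nat.primeCounting N := by
  have h := Chebyshev.pi_ge N
  refine le_trans ?_ h
  have hN0 : (8 : ℝ) ≤ N := by exact_mod_cast hN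
  have hlog : 0 < Real.log N := Real.log_pos (by linarith)
  rw [div_mul_eq_div_div, div_le_div_iff_of_pos_right hlog]
  have h1 : Real.log (N + 1) ≤ Real.log (2 * N) := Real.log_le_log (by linarith) (by linarith)
  have h2 : Real.log (2 * N) = Real.log 8 + Real.log (N / 4) := by
    rw [← Real.log_mul (by norm_num) (by positivity)]
    congr 1; ring
  have h3 := Real.log_le_sub_one_of_pos (show (0 : ℝ) < N / 4 by linarith)
  have h4 : Real.log 8 = 3 * Real.log 2 := by
    rw [show (8 : ℝ) = 2 ^ 3 by norm_num, Real.log_pow]; norm_num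
  have h5 := Real.log_two_gt_d9
  have h6 := Real.log_two_lt_d9
  nlinarith

theorem unit_add (p : ℕ) (hp : p.Prime) (Θ : ZMod (p ^ 2)) (hΘ : IsUnit Θ) (w : ℕ) :
    IsUnit (Θ + ((p * w : ℕ) : ZMod (p ^ 2))) := by
  have hne : NeZero (p ^ 2) := ⟨pow_ne_zero _ hp.ne_zero⟩
  obtain ⟨n, rfl⟩ := ZMod.natCast_zmod_surjective Θ
  rw [ZMod.isUnit_iff_coprime, Nat.coprime_pow_right_iff (by norm_num)] at hΘ
  rw [← Nat.cast_add, ZMod.isUnit_iff_coprime, Nat.coprime_pow_right_iff (by norm_num)]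
  rwa [Nat.coprime_add_mul_left_left]

theorem card_units (p : ℕ) (hp : p.Prime) : {u : ZMod (p ^ 2) | IsUnit u}.ncard = p * (p - 1) := by
  have hne : NeZero (p ^ 2) := ⟨pow_ne_zero _ hp.ne_zero⟩
  have h1 : {u : ZMod (p ^ 2) | IsUnit u} = Set.range (Units.val : (ZMod (p ^ 2))ˣ → ZMod (p ^ 2)) := by
    ext u
    constructor
    · rintro ⟨v, hv⟩
      exact ⟨v, hv⟩
    · rintro ⟨v, rfl⟩
      exact v.isUnit
  rw [h1, ← Set.image_univ, Set.ncard_image_of_injective _ Units.val_injective, Set.ncard_univ,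
    Nat.card_eq_fintype_card, ZMod.card_units_eq_totient,
    Nat.totient_prime_pow hp (by norm_num)]
  norm_num

theorem card_bad_unit (p : ℕ) (hp : p.Prime) (Θ : ZMod (p ^ 2)) (hΘ : IsUnit Θ) :
    ({u : ZMod (p ^ 2) | IsUnit u ∧ ¬ Good p Θ u 1}.ncard : ℝ) ≤
      (1 - 1 / p) * (p * (p - 1)) := by
  classical
  have hne : NeZero (p ^ 2) := ⟨pow_ne_zero _ hp.ne_zero⟩
  let f : Fin (p - 1) → ZMod (p ^ 2) := fun w => Θ + ((p * (w + 1) : ℕ) : ZMod (p ^ 2))
  have hf : Function.Injective f := by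
    intro w w' h1
    simp only [f] at h1
    rw [add_right_inj, ZMod.natCast_eq_natCast_iff'] at h1
    have hw : p * (w + 1 : ℕ) < p ^ 2 := by
      rw [pow_two]
      exact Nat.mul_lt_mul_of_pos_left (by have := w.2; omega) hp.pos
    have hw' : p * (w' + 1 : ℕ) < p ^ 2 := by
      rw [pow_two]
      exact Nat.mul_lt_mul_of_pos_left (by have := w'.2; omega) hp.pos
    rw [Nat.mod_eq_of_lt hw, Nat.mod_eq_of_lt hw'] at h1
    have h3 := Nat.eq_of_mul_eq_mul_left hp.pos h1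
    exact Fin.ext (by omega)
  have hdisj : Disjoint {u : ZMod (p ^ 2) | IsUnit u ∧ ¬ Good p Θ u 1} (Set.range f) := by
    rw [Set.disjoint_left]
    rintro _ ⟨-, h2⟩ ⟨w, rfl⟩
    apply h2
    refine ⟨isUnit_one, w + 1, by omega, by have := w.2; omega, ?_⟩
    simp only [f]
    ring
  have hsub : {u : ZMod (p ^ 2) | IsUnit u ∧ ¬ Good p Θ u 1} ∪ Set.range f ⊆
      {u : ZMod (p ^ 2) | IsUnit u} := by
    rintro u (⟨hu, -⟩ | ⟨w, rfl⟩)
    · exact hu
    · exact unit_add p hp Θ hΘ _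
  have h1 := Set.ncard_le_ncard hsub (Set.toFinite _)
  rw [Set.ncard_union_eq hdisj (Set.toFinite _) (Set.toFinite _), card_units p hp,
    ← Set.image_univ, Set.ncard_image_of_injective _ hf, Set.ncard_univ,
    Nat.card_eq_fintype_card, Fintype.card_fin] at h1
  have h2 : ({u : ZMod (p ^ 2) | IsUnit u ∧ ¬ Good p Θ u 1}.ncard : ℝ) + ((p - 1 : ℕ) : ℝ) ≤
      (p : ℝ) * ((p - 1 : ℕ) : ℝ) := by exact_mod_cast h1
  rw [Nat.cast_sub hp.one_lt.le, Nat.cast_one] at h2
  have hp0 : (p : ℝ) ≠ 0 := by exact_mod_cast hp.ne_zero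
  have h3 : (1 - 1 / (p : ℝ)) * (p * (p - 1)) = p * (p - 1) - (p - 1) := by
    field_simp
    try ring
  rw [h3]
  linarith

theorem totient_prod (T : Finset ℕ) (hT : ∀ p ∈ T, p.Prime) :
    Nat.totient (∏ p ∈ T, p ^ 2) = ∏ p ∈ T, p * (p - 1) := by
  classical
  induction T using Finset.induction_on with
  | empty => simp
  | insert q T hq ih =>
    have hqp := hT q (Finset.mem_insert_self q T)
    have hTp : ∀ p ∈ T, p.Prime := fun p hp => hT p (Finset.mem_insert_of_mem hp)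
    rw [Finset.prod_insert hq, Finset.prod_insert hq, Nat.totient_mul, ih hTp,
      Nat.totient_prime_pow hqp (by norm_num)]
    · norm_num
    · refine Nat.Coprime.prod_right fun p hp => Nat.Coprime.pow 2 2 ?_
      exact (Nat.coprime_primes hqp (hTp p hp)).2 (by rintro rfl; exact hq hp)

/-- the classes that are not close to `Θ p` for any `p` of `T` -/
theorem card_classes (T : Finset ℕ) (hT : ∀ p ∈ T, p.Prime) (Θ : ∀ p : ℕ, ZMod (p ^ 2))
    (hΘ : ∀ p ∈ T, IsUnit (Θ p)) (B : Finset ℕ) (hB : ∀ r ∈ B, r < ∏ p ∈ T, p ^ 2)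
    (hB2 : ∀ r ∈ B, ∀ p ∈ T, IsUnit (r : ZMod (p ^ 2)) ∧ ¬ Good p (Θ p) (r : ZMod (p ^ 2)) 1) :
    (B.card : ℝ) ≤ (∏ p ∈ T, (1 - 1 / (p : ℝ))) * Nat.totient (∏ p ∈ T, p ^ 2) := by
  classical
  have hne : ∀ p : T, NeZero (p.1 ^ 2) := fun p => ⟨pow_ne_zero _ (hT p.1 p.2).ne_zero⟩
  have hcop : Pairwise fun p q : T => Nat.Coprime (p.1 ^ 2) (q.1 ^ 2) := by
    intro p q hpq
    exact Nat.Coprime.pow 2 2 ((Nat.coprime_primes (hT p.1 p.2) (hT q.1 q.2)).2
      (fun h => hpq (Subtype.ext h)))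
  let e := ZMod.prodEquivPi (fun p : T => p.1 ^ 2) hcop
  have hprod : ∏ p : T, p.1 ^ 2 = ∏ p ∈ T, p ^ 2 := Finset.prod_coe_sort T fun p => p ^ 2
  let f : ℕ → (∀ p : T, ZMod (p.1 ^ 2)) := fun r p => (r : ZMod (p.1 ^ 2))
  have hfe : ∀ r : ℕ, e (r : ZMod (∏ p : T, p.1 ^ 2)) = f r := by
    intro r
    rw [map_natCast]
    rfl
  have hf : Set.InjOn f (B : Set ℕ) := by
    intro r hr s hs h
    have h1 : e (r : ZMod (∏ p : T, p.1 ^ 2)) = e (s : ZMod (∏ p : T, p.1 ^ 2)) := by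
      rw [hfe, hfe, h]
    have h2 := e.injective h1
    rw [ZMod.natCast_eq_natCast_iff', hprod, Nat.mod_eq_of_lt (hB r hr),
      Nat.mod_eq_of_lt (hB s hs)] at h2
    exact h2
  have h1 : B.card ≤ ∏ p : T, {u : ZMod (p.1 ^ 2) | IsUnit u ∧ ¬ Good p.1 (Θ p.1) u 1}.ncard := by
    rw [← Set.ncard_coe_finset B, ← Set.InjOn.ncard_image hf]
    have h2 : (∏ p : T, {u : ZMod (p.1 ^ 2) | IsUnit u ∧ ¬ Good p.1 (Θ p.1) u 1}.ncard) =
        (Set.univ.pi fun p : T => {u : ZMod (p.1 ^ 2) | IsUnit u ∧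
          ¬ Good p.1 (Θ p.1) u 1}).ncard := by
      rw [← Nat.card_coe_set_eq, Nat.card_congr (Equiv.Set.univPi _), Nat.card_pi]
      rfl
    rw [h2]
    refine Set.ncard_le_ncard ?_ (Set.toFinite _)
    rintro _ ⟨r, hr, rfl⟩ p -
    exact hB2 r hr p.1 p.2
  have h2 : (B.card : ℝ) ≤ ∏ p : T, ({u : ZMod (p.1 ^ 2) | IsUnit u ∧
      ¬ Good p.1 (Θ p.1) u 1}.ncard : ℝ) := by exact_mod_cast h1
  refine h2.trans ?_
  rw [totient_prod T hT]
  have h3 : ((∏ p ∈ T, p * (p - 1) : ℕ) : ℝ) = ∏ p ∈ T, ((p : ℝ) * ((p : ℝ) - 1)) := by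
    rw [Nat.cast_prod]
    refine Finset.prod_congr rfl fun p hp => ?_
    rw [Nat.cast_mul, Nat.cast_sub (hT p hp).one_lt.le, Nat.cast_one]
  rw [h3, ← Finset.prod_mul_distrib, ← Finset.prod_coe_sort T]
  exact Finset.prod_le_prod (fun _ _ => by positivity) fun p _ =>
    card_bad_unit p.1 (hT p.1 p.2) _ (hΘ p.1 p.2)

/-- **100% of the primes** -/
theorem primes_density (S : Set ℕ) (hS : ∀ p ∈ S, p.Prime)
    (hdiv : ∀ B : ℝ, ∃ N : ℕ, B ≤ ∑ n ∈ Finset.range N,
      Set.indicator S (fun _ => (1 : ℝ)) n * (1 / ((n : ℝ) + 1)))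
    (Θ : ∀ p : ℕ, ZMod (p ^ 2)) (hΘ : ∀ p ∈ S, IsUnit (Θ p)) (E : Set ℕ)
    (hE : ∀ t ∈ E, ∀ p ∈ S, ¬ Good p (Θ p) (t : ZMod (p ^ 2)) 1) (ε : ℝ) (hε : 0 < ε) :
    ∀ᶠ X : ℕ in atTop, (({q | q ≤ X ∧ q.Prime ∧ q ∈ E}.ncard : ℕ) : ℝ) ≤
      ε * Nat.primeCounting X := by
  classical
  obtain ⟨C, hC1, hC⟩ := Pool.Agent.Helper602.MK.BTLib.brun_titchmarsh
  set δ := ε / (1 + 16 * C) with hδ
  have hδ0 : 0 < δ := by positivity
  obtain ⟨T, hTS, hTδ⟩ := small_prod S hS hdiv δ hδ0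
  have hT : ∀ p ∈ T, p.Prime := fun p hp => hS p (hTS p hp)
  have hTδ' : ∏ p ∈ T, (1 - 1 / (p : ℝ)) ≤ δ := by
    refine le_trans (Finset.prod_le_prod ?_ ?_) hTδ.le
    · intro p hp
      have hp0 : (1 : ℝ) ≤ p := by exact_mod_cast (hT p hp).one_lt.le
      rw [sub_nonneg, div_le_one (by positivity)]
      exact hp0
    · intro p hp
      have hp0 : (1 : ℝ) ≤ p := by exact_mod_cast (hT p hp).one_lt.le
      have h1 : 1 / (4 * (p : ℝ)) ≤ 1 / p := by
        apply one_div_le_one_div_of_le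
        · positivity
        · linarith
      linarith
  set N := ∏ p ∈ T, p ^ 2 with hN
  have hN0 : 0 < N := Finset.prod_pos fun p hp => pow_pos (hT p hp).pos 2
  have hNR : (1 : ℝ) ≤ N := by exact_mod_cast hN0
  have hφ : 0 < Nat.totient N := Nat.totient_pos.2 hN0
  have hφR : (0 : ℝ) < Nat.totient N := by exact_mod_cast hφ
  set B := (Finset.range N).filter fun r => ∀ p ∈ T, IsUnit (r : ZMod (p ^ 2)) ∧
    ¬ Good p (Θ p) (r : ZMod (p ^ 2)) 1 with hB
  have hBc : (B.card : ℝ) ≤ δ * Nat.totient N :=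
    (card_classes T hT Θ (fun p hp => hΘ p (hTS p hp)) B
      (fun r hr => Finset.mem_range.1 (Finset.mem_filter.1 hr).1)
      (fun r hr => (Finset.mem_filter.1 hr).2)).trans
      (mul_le_mul_of_nonneg_right hTδ' (Nat.cast_nonneg _))
  have hev1 : ∀ᶠ X : ℕ in atTop, (N : ℝ) ≤ δ * ((X : ℝ) / (4 * Real.log X)) := by
    have h1 : Tendsto (fun X : ℝ => X / Real.log X) atTop atTop := by
      have h2 := Real.isLittleO_log_id_atTop
      have h3 : Tendsto (fun X : ℝ => Real.log X / X) atTop (𝓝 0) := h2.tendsto_div_nhds_zero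
      have h4 : Tendsto (fun X : ℝ => Real.log X / X) atTop (𝓝[>] 0) := by
        rw [tendsto_nhdsWithin_iff]
        refine ⟨h3, ?_⟩
        filter_upwards [eventually_gt_atTop 1] with X hX
        exact div_pos (Real.log_pos hX) (by linarith)
      have h5 := h4.inv_tendsto_nhdsGT_zero
      refine h5.congr fun X => ?_
      rw [Pi.inv_apply, inv_div]
    have h2 := (h1.comp tendsto_natCast_atTop_atTop).eventually_ge_atTop (4 * N / δ)
    filter_upwards [h2] with X hX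
    have h3 : (4 * N / δ : ℝ) ≤ X / Real.log X := hX
    rw [div_le_iff₀ hδ0] at h3
    have h4 : δ * ((X : ℝ) / (4 * Real.log X)) = (X / Real.log X * δ) / 4 := by
      rw [mul_comm 4, ← div_div]
      ring
    rw [h4]
    linarith
  filter_upwards [hev1, eventually_ge_atTop (max 8 (N ^ 2))] with X hX1 hX2
  have hX8 : 8 ≤ X := (le_max_left _ _).trans hX2
  have hXN : N ^ 2 ≤ X := (le_max_right _ _).trans hX2
  have hX8R : (8 : ℝ) ≤ X := by exact_mod_cast hX8
  have hXNR : (N : ℝ) ^ 2 ≤ X := by exact_mod_cast hXN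
  have hlogX : 0 < Real.log X := Real.log_pos (by linarith)
  have hpi := pi_lower hX8
  set M := X / N + 1 with hM
  have hNX : N ≤ X := (Nat.le_self_pow two_ne_zero N).trans hXN
  have hM2 : 2 ≤ M := by
    have := Nat.div_pos hNX hN0
    omega
  have hMR : (X : ℝ) / N ≤ M := by
    rw [div_le_iff₀ (by linarith)]
    have h1 : X ≤ M * N := by
      have h2 := Nat.lt_div_mul_add (a := X) hN0
      rw [hM, add_mul, one_mul]
      omega
    exact_mod_cast h1
  have hNM : (N : ℝ) * M ≤ 2 * X := by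
    have h1 : N * M ≤ 2 * X := by
      have h2 := Nat.mul_div_le X N
      rw [hM, mul_add, mul_one]
      omega
    exact_mod_cast h1
  have hlogM : Real.log X / 2 ≤ Real.log M := by
    have h1 : Real.log ((X : ℝ) / N) ≤ Real.log M := Real.log_le_log (by positivity) hMR
    rw [Real.log_div (by positivity) (by positivity)] at h1
    have h2 : Real.log ((N : ℝ) ^ 2) ≤ Real.log X := Real.log_le_log (by positivity) hXNR
    rw [Real.log_pow] at h2
    push_cast at h2
    linarith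
  have hlogM0 : 0 < Real.log M := by linarith
  -- the count
  have hsub : {q | q ≤ X ∧ q.Prime ∧ q ∈ E} ⊆
      (((Finset.range (N + 1)).filter fun q => q ∣ N) ∪ B.biUnion fun r =>
        ((Finset.range M).filter fun k => (r + k * N).Prime).image fun k => r + k * N :
          Finset ℕ) := by
    rintro q ⟨hqX, hqp, hqE⟩
    simp only [Finset.coe_union, Set.mem_union, Finset.mem_coe, Finset.mem_filter,
      Finset.mem_range, Finset.mem_biUnion, Finset.mem_image]
    by_cases hqN : q ∣ N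
    · left
      exact ⟨Nat.lt_succ_of_le (Nat.le_of_dvd hN0 hqN), hqN⟩
    · right
      refine ⟨q % N, ?_, q / N, ⟨?_, ?_⟩, ?_⟩
      · rw [hB, Finset.mem_filter, Finset.mem_range]
        refine ⟨Nat.mod_lt _ hN0, fun p hp => ?_⟩
        have hpN : p ^ 2 ∣ N := Finset.dvd_prod_of_mem (fun p => p ^ 2) hp
        have h1 : ((q % N : ℕ) : ZMod (p ^ 2)) = (q : ZMod (p ^ 2)) := by
          rw [ZMod.natCast_eq_natCast_iff']
          exact Nat.mod_mod_of_dvd q hpN
        rw [h1]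
        refine ⟨?_, hE q hqE p (hTS p hp)⟩
        rw [ZMod.isUnit_iff_coprime]
        refine Nat.Coprime.pow_right 2 ((Nat.coprime_primes hqp (hT p hp)).2 ?_)
        rintro rfl
        exact hqN ((dvd_pow_self q two_ne_zero).trans hpN)
      · rw [hM]
        exact Nat.lt_succ_of_le (Nat.div_le_div_right hqX)
      · rw [mul_comm, Nat.mod_add_div]
        exact hqp
      · rw [mul_comm, Nat.mod_add_div]
  have h1 := Set.ncard_le_ncard hsub (Finset.finite_toSet _)
  rw [Set.ncard_coe_finset] at h1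
  have h2 : (((Finset.range (N + 1)).filter fun q => q ∣ N) ∪ B.biUnion fun r =>
        ((Finset.range M).filter fun k => (r + k * N).Prime).image fun k => r + k * N).card ≤
      N + ∑ r ∈ B, ((Finset.range M).filter fun k => (r + k * N).Prime).card := by
    refine (Finset.card_union_le _ _).trans (add_le_add ?_ ?_)
    · have h3 : ((Finset.range (N + 1)).filter fun q => q ∣ N) ⊆ (Finset.range (N + 1)).erase 0 := by
        intro q hq
        rw [Finset.mem_filter] at hq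
        rw [Finset.mem_erase]
        refine ⟨?_, hq.1⟩
        rintro rfl
        exact hN0.ne' (Nat.eq_zero_of_zero_dvd hq.2)
      have h4 := Finset.card_le_card h3
      rw [Finset.card_erase_of_mem (by simp), Finset.card_range] at h4
      exact h4
    · refine Finset.card_biUnion_le.trans (Finset.sum_le_sum fun r _ => Finset.card_image_le)
  have h3 : ∀ r ∈ B, (((Finset.range M).filter fun k => (r + k * N).Prime).card : ℝ) ≤
      C * ((N : ℝ) / (Nat.totient N : ℝ)) * M / Real.log M := fun r _ => hC r N M hN0 hM2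
  have h4 : ((∑ r ∈ B, ((Finset.range M).filter fun k => (r + k * N).Prime).card : ℕ) : ℝ) ≤
      B.card * (C * ((N : ℝ) / (Nat.totient N : ℝ)) * M / Real.log M) := by
    rw [Nat.cast_sum, ← nsmul_eq_mul]
    exact Finset.sum_le_card_nsmul _ _ _ h3
  have h5 : (B.card : ℝ) * (C * ((N : ℝ) / (Nat.totient N : ℝ)) * M / Real.log M) ≤
      δ * Nat.totient N * (C * ((N : ℝ) / (Nat.totient N : ℝ)) * M / Real.log M) :=
    mul_le_mul_of_nonneg_right hBc (by positivity)
  have h6 : δ * Nat.totient N * (C * ((N : ℝ) / (Nat.totient N : ℝ)) * M / Real.log M) =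
      δ * C * ((N : ℝ) * M) / Real.log M := by
    field_simp
  have h7 : δ * C * ((N : ℝ) * M) / Real.log M ≤ δ * C * (2 * X) / (Real.log X / 2) := by
    gcongr
  have h8 : δ * C * (2 * X) / (Real.log X / 2) = 16 * C * δ * (X / (4 * Real.log X)) := by
    field_simp
    ring
  have h9 : (({q | q ≤ X ∧ q.Prime ∧ q ∈ E}.ncard : ℕ) : ℝ) ≤
      N + ((∑ r ∈ B, ((Finset.range M).filter fun k => (r + k * N).Prime).card : ℕ) : ℝ) := by
    exact_mod_cast h1.trans h2
  have h10 : (({q | q ≤ X ∧ q.Prime ∧ q ∈ E}.ncard : ℕ) : ℝ) ≤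
      (1 + 16 * C) * δ * (X / (4 * Real.log X)) := by
    have h11 : (1 + 16 * C) * δ * ((X : ℝ) / (4 * Real.log X)) = δ * ((X : ℝ) / (4 * Real.log X)) +
      16 * C * δ * (X / (4 * Real.log X)) := by ring
    rw [h11, ← h8]
    linarith
  refine h10.trans ?_
  have h11 : (1 + 16 * C) * δ = ε := by
    rw [hδ]
    field_simp
  rw [h11]
  exact mul_le_mul_of_nonneg_left hpi hε.le

end Pool.Agent.V11235.SD
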