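import Pool.Agent.W858.SG.Dens
import Pool.Agent.V11235.SD.Cnt

/-! The residue map modulo the square of an unramified prime of degree one. -/

set_option autoImplicit false

namespace Pool.Agent.V11235.SD

open NumberField IsDedekindDomain WithZero Pool.Agent.W858.SG

variable {L : Type} [Field L] [NumberField L] (v : HeightOneSpectrum (𝓞 L)) (p : ℕ)
  (hp : p.Prime) (hvp : Ideal.absNorm v.asIdeal = p) (hur : (p : 𝓞 L) ∉ v.asIdeal ^ 2)

include hvp in
theorem p_mem : (p : 𝓞 L) ∈ v.asIdeal := by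
  rw [← hvp]
  exact Ideal.absNorm_mem _

include hvp hur in
theorem val_p : v.valuation L (p : L) = exp (-1) := by
  have h1 : (p : L) = algebraMap (𝓞 L) L (p : 𝓞 L) := by rw [map_natCast]
  rw [h1]
  apply le_antisymm
  · rw [HeightOneSpectrum.valuation_of_algebraMap]
    exact (v.intValuation_le_pow_iff_mem _ 1).2 (by rw [pow_one]; exact p_mem v p hvp)
  · by_contra h2
    rw [not_le] at h2
    exact hur ((val_le_iff v _).1 (lt_exp_neg_one _ h2))

include hp hvp in
theorem val_nat (n : ℕ) (hn : ¬ p ∣ n) : v.valuation L (n : L) = 1 := by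
  have h1 : (n : L) = algebraMap (𝓞 L) L (n : 𝓞 L) := by rw [map_natCast]
  rw [h1]
  refine (HeightOneSpectrum.valuation_eq_one_iff_notMem v).2 fun h => ?_
  have h2 : IsCoprime (p : ℤ) (n : ℤ) :=
    Nat.isCoprime_iff_coprime.2 ((Nat.Prime.coprime_iff_not_dvd hp).2 hn)
  obtain ⟨a, b, hab⟩ := h2
  have h3 : ((a : 𝓞 L) * (p : 𝓞 L) + (b : 𝓞 L) * (n : 𝓞 L)) = 1 := by exact_mod_cast hab
  apply v.isPrime.ne_top
  rw [Ideal.eq_top_iff_one, ← h3]
  exact Ideal.add_mem _ (Ideal.mul_mem_left _ _ (p_mem v p hvp)) (Ideal.mul_mem_left _ _ h)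

include hp hvp hur in
theorem val_int_le (n : ℕ) (h : v.valuation L (n : L) ≤ exp (-2)) : p ^ 2 ∣ n := by
  have h0 : p ∣ n := by
    by_contra h1
    rw [val_nat v p hp hvp n h1, ← exp_zero, exp_le_exp] at h
    omega
  obtain ⟨m, rfl⟩ := h0
  rw [pow_two]
  refine Nat.mul_dvd_mul_left _ ?_
  by_contra h1
  rw [Nat.cast_mul, map_mul, val_p v p hvp hur, val_nat v p hp hvp m h1, mul_one, exp_le_exp] at h
  omega

include hp hvp in
theorem near_one (x : L) (hx : v.valuation L x ≤ 1) :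
    ∃ n : ℕ, v.valuation L (x - n) ≤ exp (-1) := by
  classical
  obtain ⟨y, hy⟩ := exists_int_near {v} x (by simpa using hx)
  have hy := hy v (by simp)
  have hnt : Nontrivial (𝓞 L ⧸ v.asIdeal) := Ideal.Quotient.nontrivial_iff.2 v.isPrime.ne_top
  have hchar : CharP (𝓞 L ⧸ v.asIdeal) p := by
    rw [CharP.charP_iff_prime_eq_zero hp]
    have h1 := (Ideal.Quotient.eq_zero_iff_mem (I := v.asIdeal)).2 (p_mem v p hvp)
    rwa [map_natCast] at h1
  have hcard : Nat.card (𝓞 L ⧸ v.asIdeal) = p := by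
    rw [← hvp, Ideal.absNorm_apply, Submodule.cardQuot_apply]
  have hfin : Finite (𝓞 L ⧸ v.asIdeal) := Ideal.finiteQuotientOfFreeOfNeBot _ v.ne_bot
  have hne : NeZero p := ⟨hp.ne_zero⟩
  have hs : Function.Surjective (ZMod.castHom (dvd_refl p) (𝓞 L ⧸ v.asIdeal)) := by
    have h1 := (Nat.bijective_iff_injective_and_card
      (ZMod.castHom (dvd_refl p) (𝓞 L ⧸ v.asIdeal))).2
      ⟨ZMod.castHom_injective _, by rw [hcard, Nat.card_zmod]⟩
    exact h1.2
  obtain ⟨z, hz⟩ := hs (Ideal.Quotient.mk _ y)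
  obtain ⟨n, rfl⟩ := ZMod.natCast_zmod_surjective z
  rw [map_natCast] at hz
  refine ⟨n, ?_⟩
  have h1 : y - n ∈ v.asIdeal := by
    rw [← Ideal.Quotient.eq_zero_iff_mem, map_sub, map_natCast, hz, sub_self]
  have h2 : v.valuation L (algebraMap (𝓞 L) L (y - n)) ≤ exp (-1) := by
    rw [HeightOneSpectrum.valuation_of_algebraMap]
    exact (v.intValuation_le_pow_iff_mem _ 1).2 (by rwa [pow_one])
  have h3 : x - n = (x - algebraMap (𝓞 L) L y) + algebraMap (𝓞 L) L (y - n) := by
    rw [map_sub, map_natCast]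
    ring
  rw [h3]
  refine (Valuation.map_add _ _ _).trans (max_le (hy.trans ?_) h2)
  rw [exp_le_exp]
  omega

include hp hvp hur in
theorem near (x : L) (hx : v.valuation L x ≤ 1) :
    ∃ n : ℕ, v.valuation L (x - n) ≤ exp (-2) := by
  obtain ⟨n, hn⟩ := near_one v p hp hvp x hx
  have hp0 : (p : L) ≠ 0 := by exact_mod_cast hp.ne_zero
  have h1 : v.valuation L ((x - n) / p) ≤ 1 := by
    rw [map_div₀, val_p v p hvp hur]
    have h2 : v.valuation L (x - n) / exp (-1) ≤ exp (-1) / exp (-1) := by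
      gcongr
      exact zero_le
    rwa [div_self exp_ne_zero] at h2
  obtain ⟨m, hm⟩ := near_one v p hp hvp _ h1
  refine ⟨n + p * m, ?_⟩
  have h2 : x - ((n + p * m : ℕ) : L) = p * ((x - n) / p - m) := by
    push_cast
    field_simp
    ring
  rw [h2, map_mul, val_p v p hvp hur]
  calc exp (-1) * v.valuation L ((x - n) / p - m) ≤ exp (-1) * exp (-1) := by gcongr
    _ = exp (-2) := by rw [← exp_add]; rfl

include hp hvp hur in
/-- the residue map -/
theorem exists_chi {R : Type} [CommRing R] (P : R →+* L) (hP : ∀ r, v.valuation L (P r) ≤ 1) :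
    ∃ χ : R →+* ZMod (p ^ 2), ∀ (r : R) (n : ℕ), χ r = n → v.valuation L (P r - n) ≤ exp (-2) := by
  classical
  let A := (v.valuation L).valuationSubring
  let J : Ideal A :=
    { carrier := {x | v.valuation L (x : L) ≤ exp (-2)}
      add_mem' := by
        intro x y hx hy
        have hx' : v.valuation L (x : L) ≤ exp (-2) := hx
        have hy' : v.valuation L (y : L) ≤ exp (-2) := hy
        exact (Valuation.map_add _ _ _).trans (max_le hx' hy')
      zero_mem' := by
        change v.valuation L ((0 : A) : L) ≤ exp (-2)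
        rw [ZeroMemClass.coe_zero, map_zero]
        exact zero_le
      smul_mem' := by
        intro c x hx
        change v.valuation L ((c : L) * (x : L)) ≤ exp (-2)
        rw [map_mul, mul_comm]
        exact mul_le_of_le_of_le_one hx c.2 }
  have hJ : ∀ x : A, x ∈ J ↔ v.valuation L (x : L) ≤ exp (-2) := fun x => Iff.rfl
  have hchar : CharP (A ⧸ J) (p ^ 2) := by
    refine ⟨fun n => ?_⟩
    have h1 : ((n : ℕ) : A ⧸ J) = Ideal.Quotient.mk J (n : A) := by rw [map_natCast]
    rw [h1, Ideal.Quotient.eq_zero_iff_mem, hJ, SubringClass.coe_natCast]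
    constructor
    · exact val_int_le v p hp hvp hur n
    · rintro ⟨m, rfl⟩
      rw [Nat.cast_mul, map_mul, Nat.cast_pow, map_pow, val_p v p hvp hur]
      have h2 : v.valuation L (m : L) ≤ 1 := by
        have h3 : (m : L) = algebraMap (𝓞 L) L (m : 𝓞 L) := by rw [map_natCast]
        rw [h3]
        exact v.valuation_le_one _
      have h3 : (exp (-1) : ℤᵐ⁰) ^ 2 = exp (-2) := by
        rw [pow_two, ← exp_add]
        rfl
      rw [h3]
      exact mul_le_of_le_one_right' h2
  have hne : NeZero (p ^ 2) := ⟨pow_ne_zero _ hp.ne_zero⟩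
  have hbij : Function.Bijective (ZMod.castHom (dvd_refl (p ^ 2)) (A ⧸ J)) := by
    refine ⟨ZMod.castHom_injective _, fun y => ?_⟩
    obtain ⟨x, rfl⟩ := Ideal.Quotient.mk_surjective y
    obtain ⟨n, hn⟩ := near v p hp hvp hur (x : L) x.2
    refine ⟨(n : ZMod (p ^ 2)), ?_⟩
    rw [map_natCast, eq_comm, ← sub_eq_zero, ← map_natCast (Ideal.Quotient.mk J), ← map_sub,
      Ideal.Quotient.eq_zero_iff_mem, hJ]
    push_cast
    exact hn
  let e := RingEquiv.ofBijective _ hbij
  let PA : R →+* A :=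
    { toFun := fun r => ⟨P r, hP r⟩
      map_one' := Subtype.ext (map_one P)
      map_mul' := fun y z => Subtype.ext (map_mul P _ _)
      map_zero' := Subtype.ext (map_zero P)
      map_add' := fun y z => Subtype.ext (map_add P _ _) }
  refine ⟨(e.symm : (A ⧸ J) →+* ZMod (p ^ 2)).comp ((Ideal.Quotient.mk J).comp PA), ?_⟩
  intro r n h
  have h1 : e.symm (Ideal.Quotient.mk J (PA r)) = (n : ZMod (p ^ 2)) := h
  rw [RingEquiv.symm_apply_eq, map_natCast, ← sub_eq_zero, ← map_natCast (Ideal.Quotient.mk J),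
    ← map_sub, Ideal.Quotient.eq_zero_iff_mem, hJ] at h1
  push_cast at h1
  exact h1

include hp hvp hur in
theorem good_val {R : Type} [CommRing R] (P : R →+* L) (χ : R →+* ZMod (p ^ 2))
    (hχ : ∀ (r : R) (n : ℕ), χ r = n → v.valuation L (P r - n) ≤ exp (-2)) (θ a b : R)
    (h : Good p (χ θ) (χ a) (χ b)) :
    v.valuation L (P b) = 1 ∧ v.valuation L (P (a - θ * b)) = exp (-1) := by
  have hne : NeZero (p ^ 2) := ⟨pow_ne_zero _ hp.ne_zero⟩
  obtain ⟨h1, w, hw0, hwp, hw⟩ := h
  constructor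
  · obtain ⟨n, hn⟩ := ZMod.natCast_zmod_surjective (χ b)
    have h2 := hχ b n hn.symm
    rw [← hn, ZMod.isUnit_iff_coprime] at h1
    have h3 : ¬ p ∣ n := by
      intro h4
      have h5 : p ∣ Nat.gcd n (p ^ 2) := Nat.dvd_gcd h4 (dvd_pow_self p two_ne_zero)
      rw [h1] at h5
      exact hp.one_lt.ne' (Nat.dvd_one.1 h5)
    have h4 := val_nat v p hp hvp n h3
    have h5 : P b = (P b - n) + n := by ring
    rw [h5, Valuation.map_add_eq_of_lt_right, h4]
    rw [h4]
    refine h2.trans_lt ?_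
    rw [← exp_zero, exp_lt_exp]
    omega
  · have h2 : χ (a - θ * b) = ((p * w : ℕ) : ZMod (p ^ 2)) := by
      rw [map_sub, map_mul]
      exact hw
    have h3 := hχ _ _ h2
    have h4 : v.valuation L ((p * w : ℕ) : L) = exp (-1) := by
      rw [Nat.cast_mul, map_mul, val_p v p hvp hur, val_nat v p hp hvp w, mul_one]
      intro h5
      exact absurd (Nat.le_of_dvd hw0 h5) (by omega)
    have h5 : P (a - θ * b) = (P (a - θ * b) - ((p * w : ℕ) : L)) + ((p * w : ℕ) : L) := by ring
    rw [h5, Valuation.map_add_eq_of_lt_right, h4]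
    rw [h4]
    refine h3.trans_lt ?_
    rw [exp_lt_exp]
    omega

end Pool.Agent.V11235.SD
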