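import Pool.Agent.Y141.PS.FG

/-! Specialisation of finitely generated rings: the first part of the proof of
`Pool.Agent.W858.SG.density_fg`, stated separately. -/

set_option autoImplicit false
set_option linter.all false

namespace Pool.Agent.V11235.SD

open IsDedekindDomain NumberField WithZero Polynomial Pool.Agent.W623.SecC Pool.Agent.W858.SF
open Pool.Agent.W858.SG

/-- the conclusion -/
def Pkg (R k : Type) [CommRing R] [Field k] [Algebra R k] (U : Finset R) (F : R[X]) : Prop :=
  ∃ (L : Type) (_ : Field L) (_ : NumberField L) (P : R →+* L),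
    (∀ u ∈ U, P u ≠ 0) ∧ (F.map P).Separable ∧
    (∃ σ' : AlgebraicClosure L ≃ₐ[L] AlgebraicClosure L,
      ∀ θ : AlgebraicClosure L, aeval θ (F.map P) = 0 → σ' θ ≠ θ) ∧
    AE fun v : HeightOneSpectrum (𝓞 L) => (∀ r, v.valuation L (P r) ≤ 1) ∧
      ∃ ψ : k →+* v.adicCompletion L,
        ∀ r, vv v (ψ (algebraMap R k r) - algebraMap L (v.adicCompletion L) (P r)) ≤ exp (-2)

theorem pkg_aux {R k : Type} [CommRing R] [IsDomain R] [Field k] [CharZero k]
    [Algebra R k] [IsFractionRing R k] (G : Finset R) (hG : Algebra.adjoin ℤ (G : Set R) = ⊤)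
    {m : ℕ} {Q : Type} [Field Q] [Algebra (MvPolynomial (Fin m) ℚ) Q]
    [IsFractionRing (MvPolynomial (Fin m) ℚ) Q] [Algebra Q k]
    [Algebra (MvPolynomial (Fin m) ℚ) k] [IsScalarTower (MvPolynomial (Fin m) ℚ) Q k]
    [Algebra.IsAlgebraic Q k] [Algebra.EssFiniteType ℤ k] (U : Finset R) (hU : ∀ u ∈ U, u ≠ 0)
    (F : R[X]) (hFs : (F.map (algebraMap R k)).Separable)
    (hσ : ∃ σ : AlgebraicClosure k ≃ₐ[k] AlgebraicClosure k,
      ∀ θ : AlgebraicClosure k, aeval θ (F.map (algebraMap R k)) = 0 → σ θ ≠ θ) :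
    Pkg R k U F := by
  classical
  have e4 : Algebra.EssFiniteType Q k := Algebra.EssFiniteType.of_comp ℤ Q k
  have hfin : FiniteDimensional Q k := Algebra.finite_of_essFiniteType_of_isAlgebraic
  have hinjk : Function.Injective (algebraMap R k) := IsFractionRing.injective R k
  have hczQ : CharZero Q := charZero_of_injective_algebraMap
    (IsFractionRing.injective (MvPolynomial (Fin m) ℚ) Q)
  obtain ⟨σ, hσF⟩ := hσ
  obtain ⟨α, hgen, hα⟩ := Pool.Agent.H298R2.Kuyk.exists_prim (MvPolynomial (Fin m) ℚ) Q k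
  have hDNex : ∀ r : R, ∃ (D : MvPolynomial (Fin m) ℚ) (N : (MvPolynomial (Fin m) ℚ)[X]),
      D ≠ 0 ∧ algebraMap _ k D * algebraMap R k r = aeval α N := by
    intro r
    obtain ⟨p, -, hp⟩ := H33.V4.exists_rep (Q := Q) α hgen (algebraMap R k r)
    obtain ⟨D, hD, hDp⟩ := IsLocalization.integerNormalization_spec
      (nonZeroDivisors (MvPolynomial (Fin m) ℚ)) p
    refine ⟨D, IsLocalization.integerNormalization (nonZeroDivisors (MvPolynomial (Fin m) ℚ)) p,
      nonZeroDivisors.ne_zero hD, ?_⟩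
    rw [← aeval_map_algebraMap Q, hDp, Algebra.smul_def, map_mul, hp]
    congr 1
    rw [IsScalarTower.algebraMap_apply (MvPolynomial (Fin m) ℚ) Q k,
      IsScalarTower.algebraMap_apply (MvPolynomial (Fin m) ℚ) Q Q[X]]
    simp
  choose D N hD hDN using hDNex
  obtain ⟨L, _, _, P, c, β, hβtop, hβ, hβ', hDP, hPα, hU', hsepP, hσP⟩ :=
    exists_spec (Q := Q) hinjk α hα hgen G hG D N (fun r _ => hDN r) (fun r _ => hD r)
      U hU F hFs σ hσF
  have hemb := exists_emb (Q := Q) α hα hgen P G hG D N (fun r _ => hDN r) c β hβ hβ' hDP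
  exact ⟨L, inferInstance, inferInstance, P, hU', hsepP, hσP, hemb⟩

theorem pkg {R k : Type} [CommRing R] [IsDomain R] [CharZero R] [Algebra.FiniteType ℤ R]
    [Field k] [Algebra R k] [IsFractionRing R k] (U : Finset R) (hU : ∀ u ∈ U, u ≠ 0)
    (F : R[X]) (hFs : (F.map (algebraMap R k)).Separable)
    (hσ : ∃ σ : AlgebraicClosure k ≃ₐ[k] AlgebraicClosure k,
      ∀ θ : AlgebraicClosure k, aeval θ (F.map (algebraMap R k)) = 0 → σ θ ≠ θ) :
    Pkg R k U F := by
  classical
  have hcz : CharZero k := charZero_of_injective_algebraMap (IsFractionRing.injective R k)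
  obtain ⟨G, hG⟩ := (inferInstance : Algebra.FiniteType ℤ R).out
  have e1 : Algebra.EssFiniteType R k := Algebra.EssFiniteType.of_isLocalization k (nonZeroDivisors R)
  have e2 : Algebra.EssFiniteType ℤ k := Algebra.EssFiniteType.comp ℤ R k
  have e3 : Algebra.EssFiniteType ℚ k := Algebra.EssFiniteType.of_comp ℤ ℚ k
  obtain ⟨s, hs⟩ := IntermediateField.fg_top ℚ k
  have halg0 : Algebra.IsAlgebraic (Algebra.adjoin ℚ (s : Set k)) k := by
    rw [← IntermediateField.isAlgebraic_adjoin_iff_top, hs, Algebra.isAlgebraic_iff_isIntegral]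
    exact Algebra.isIntegral_of_surjective IntermediateField.topEquiv.surjective
  obtain ⟨t, hts, ht⟩ := exists_isTranscendenceBasis_subset (R := ℚ) (s : Set k)
  lift t to Finset k using s.finite_toSet.subset hts
  let m := t.card
  let e : Fin m ≃ t := t.equivFin.symm
  let x : Fin m → k := fun i => (e i : k)
  have hx : IsTranscendenceBasis ℚ x := (isTranscendenceBasis_equiv e).2 ht
  let _ : Algebra (MvPolynomial (Fin m) ℚ) k := (MvPolynomial.aeval x).toRingHom.toAlgebra
  have hinj : Function.Injective (algebraMap (MvPolynomial (Fin m) ℚ) k) := hx.1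
  let _ : Algebra (FractionRing (MvPolynomial (Fin m) ℚ)) k :=
    (IsFractionRing.lift (K := FractionRing (MvPolynomial (Fin m) ℚ)) hinj).toAlgebra
  have htow : IsScalarTower (MvPolynomial (Fin m) ℚ) (FractionRing (MvPolynomial (Fin m) ℚ)) k :=
    IsScalarTower.of_algebraMap_eq fun p => (IsFractionRing.lift_algebraMap hinj p).symm
  have hta : Algebra.IsAlgebraic (FractionRing (MvPolynomial (Fin m) ℚ)) k := by
    refine ⟨fun y => ?_⟩
    obtain ⟨p, hp, hpy⟩ := hx.isAlgebraic.isAlgebraic y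
    have h1 : IsAlgebraic (MvPolynomial (Fin m) ℚ) y := by
      refine ⟨p.map hx.1.aevalEquiv.symm.toRingEquiv.toRingHom, ?_, ?_⟩
      · exact (Polynomial.map_ne_zero_iff
          hx.1.aevalEquiv.symm.toRingEquiv.injective).2 hp
      · rw [aeval_def, eval₂_map]
        rw [aeval_def] at hpy
        have h2 : (algebraMap (MvPolynomial (Fin m) ℚ) k).comp
            hx.1.aevalEquiv.symm.toRingEquiv.toRingHom =
            algebraMap (Algebra.adjoin ℚ (Set.range x)) k := by
          ext1 z
          obtain ⟨p, rfl⟩ := hx.1.aevalEquiv.surjective z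
          rw [hx.1.algebraMap_aevalEquiv]
          change MvPolynomial.aeval x (hx.1.aevalEquiv.symm (hx.1.aevalEquiv p)) = _
          rw [AlgEquiv.symm_apply_apply]
        rw [h2]
        exact hpy
    exact h1.extendScalars (IsFractionRing.injective _ _)
  exact pkg_aux (m := m) (Q := FractionRing (MvPolynomial (Fin m) ℚ)) G hG U hU F hFs hσ

end Pool.Agent.V11235.SD
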