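import Pool.Agent.Y141.PS.FG

/-! The reduction of a polynomial under an embedding into a completion; the first half of the proof
of `Pool.Agent.Y141.PS.fineP_emb`. -/

set_option autoImplicit false

namespace Pool.Agent.V11235.SD

open IsDedekindDomain NumberField WithZero Polynomial Pool.Agent.W858.SF Pool.Agent.W858.SG

theorem red_facts {L : Type} [Field L] [NumberField L]
    (v : HeightOneSpectrum (𝓞 L)) {R : Type} [CommRing R] {k : Type} [Field k]
    [Algebra R k]
    (hinjk : Function.Injective (algebraMap R k)) (P : R →+* L) (ψ : k →+* v.adicCompletion L)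
    (hPint : ∀ r, v.valuation L (P r) ≤ 1)
    (hψ : ∀ r, vv v (ψ (algebraMap R k r) - algebraMap L (v.adicCompletion L) (P r)) ≤ exp (-2))
    (G : R[X]) (N : 𝓞 L)
    (g : (𝓞 L)[X]) (hg : g.map (algebraMap (𝓞 L) L) = C (algebraMap (𝓞 L) L N) * G.map P)
    (hdeg : g.natDegree = G.natDegree) (hlc : g.leadingCoeff ∉ v.asIdeal)
    (hs : (g.map (Ideal.Quotient.mk v.asIdeal)).Separable)
    (hroot : ∀ r : 𝓞 L ⧸ v.asIdeal, (g.map (Ideal.Quotient.mk v.asIdeal)).eval r ≠ 0) :
    ∃ gB : (vv v).valuationSubring[X],
      gB.map (algebraMap (vv v).valuationSubring (v.adicCompletion L)) =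
        G.map (ψ.comp (algebraMap R k)) ∧ gB.natDegree = G.natDegree ∧ IsUnit gB.leadingCoeff ∧
      (gB.map (IsLocalRing.residue (vv v).valuationSubring)).Separable ∧
      ∀ b, gB.eval b ∉ IsLocalRing.maximalIdeal (vv v).valuationSubring := by
  classical
  have hfinres := finite_residue v
  have hmax : v.asIdeal.IsMaximal := v.isMaximal
  let _ := Ideal.Quotient.field v.asIdeal
  obtain ⟨θ, hθ, hθr⟩ := exists_residue_map v
  have hθinj : Function.Injective θ := θ.injective
  have hγ2 : (exp (-2) : ℤᵐ⁰) < 1 := by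
    rw [← exp_zero, exp_lt_exp]
    omega
  have hPv : ∀ r, vv v (algebraMap L (v.adicCompletion L) (P r)) ≤ 1 := fun r => by
    rw [vv_algebraMap]
    exact hPint r
  have hψ1 : ∀ r, vv v (ψ (algebraMap R k r)) ≤ 1 := by
    intro r
    have h1 : ψ (algebraMap R k r) = (ψ (algebraMap R k r) -
      algebraMap L (v.adicCompletion L) (P r)) + algebraMap L (v.adicCompletion L) (P r) := by ring
    rw [h1]
    exact (Valuation.map_add _ _ _).trans (max_le ((hψ r).trans hγ2.le) (hPv r))
  have hinj : Function.Injective (ψ.comp (algebraMap R k)) := ψ.injective.comp hinjk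
  obtain ⟨gB, hgB⟩ : ∃ gB : (vv v).valuationSubring[X],
      gB.map (algebraMap (vv v).valuationSubring (v.adicCompletion L)) =
        G.map (ψ.comp (algebraMap R k)) := by
    have h1 : G.map (ψ.comp (algebraMap R k)) ∈
        Polynomial.lifts (algebraMap (vv v).valuationSubring (v.adicCompletion L)) := by
      rw [Polynomial.lifts_iff_coeff_lifts]
      intro j
      exact ⟨⟨(G.map (ψ.comp (algebraMap R k))).coeff j, by
        rw [coeff_map]
        exact hψ1 _⟩, rfl⟩
    obtain ⟨f, hf⟩ := (Polynomial.mem_lifts _).1 h1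
    exact ⟨f, hf⟩
  have hcoeff : ∀ j, ((gB.coeff j : (vv v).valuationSubring) : v.adicCompletion L) =
      ψ (algebraMap R k (G.coeff j)) := by
    intro j
    have := congrArg (fun q => q.coeff j) hgB
    simp only [coeff_map] at this
    exact this
  have hNint : ∀ r : 𝓞 L, vv v (algebraMap L (v.adicCompletion L) (algebraMap (𝓞 L) L r)) ≤ 1 := by
    intro r
    rw [vv_algebraMap]
    exact v.valuation_le_one r
  let NB : (vv v).valuationSubring :=
    ⟨algebraMap L (v.adicCompletion L) (algebraMap (𝓞 L) L N), hNint N⟩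
  have hNBres : IsLocalRing.residue _ NB = θ (Ideal.Quotient.mk v.asIdeal N) := by
    apply hθr
    change vv v (algebraMap L (v.adicCompletion L) (algebraMap (𝓞 L) L N) -
      algebraMap L (v.adicCompletion L) (algebraMap (𝓞 L) L N)) < 1
    rw [sub_self, map_zero]
    exact zero_lt_one
  have hres : ∀ j, IsLocalRing.residue _ (gB.coeff j) * θ (Ideal.Quotient.mk v.asIdeal N) =
      θ (Ideal.Quotient.mk v.asIdeal (g.coeff j)) := by
    intro j
    rw [← hNBres, ← map_mul]
    apply hθr
    have h1 : algebraMap (𝓞 L) L (g.coeff j) = algebraMap (𝓞 L) L N * P (G.coeff j) := by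
      have := congrArg (fun q => q.coeff j) hg
      simpa only [coeff_map, coeff_C_mul] using this
    have h2 : ((gB.coeff j * NB : (vv v).valuationSubring) : v.adicCompletion L) -
        algebraMap L (v.adicCompletion L) (algebraMap (𝓞 L) L (g.coeff j)) =
        algebraMap L (v.adicCompletion L) (algebraMap (𝓞 L) L N) * (ψ (algebraMap R k (G.coeff j)) -
          algebraMap L (v.adicCompletion L) (P (G.coeff j))) := by
      rw [h1, map_mul]
      change ((gB.coeff j : (vv v).valuationSubring) : v.adicCompletion L) *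
        algebraMap L (v.adicCompletion L) (algebraMap (𝓞 L) L N) - _ = _
      rw [hcoeff]
      ring
    rw [h2, map_mul]
    exact mul_lt_of_le_one_of_lt (hNint N) ((hψ _).trans_lt hγ2)
  have hpoly : gB.map (IsLocalRing.residue _) * C (θ (Ideal.Quotient.mk v.asIdeal N)) =
      (g.map (Ideal.Quotient.mk v.asIdeal)).map θ := by
    ext j
    rw [coeff_mul_C, coeff_map, coeff_map, coeff_map]
    exact hres j
  have hdegB : gB.natDegree = G.natDegree := by
    rw [← natDegree_map_eq_of_injective (f := algebraMap (vv v).valuationSubring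
      (v.adicCompletion L)) Subtype.val_injective gB, hgB, natDegree_map_eq_of_injective hinj G]
  refine ⟨gB, hgB, hdegB, ?_, ?_, ?_⟩
  · have h4 : gB.leadingCoeff ∉ IsLocalRing.maximalIdeal (vv v).valuationSubring := by
      intro h5
      have h6 := hres gB.natDegree
      have h7 : IsLocalRing.residue _ (gB.coeff gB.natDegree) = 0 :=
        (IsLocalRing.residue_eq_zero_iff _).2 h5
      rw [h7, zero_mul, hdegB, ← hdeg] at h6
      have h8 := (map_eq_zero_iff _ hθinj).1 h6.symm
      rw [Ideal.Quotient.eq_zero_iff_mem] at h8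
      exact hlc h8
    by_contra h5
    exact h4 ((IsLocalRing.mem_maximalIdeal _).2 h5)
  · have h5 : ((g.map (Ideal.Quotient.mk v.asIdeal)).map θ).Separable := hs.map
    rw [← hpoly] at h5
    exact h5.of_mul_left
  · intro b hb
    obtain ⟨r, hr⟩ := exists_int_close v b
    have h5 := hθr r b hr
    have h6 : IsLocalRing.residue (vv v).valuationSubring (gB.eval b) = 0 :=
      (IsLocalRing.residue_eq_zero_iff _).2 hb
    have h7 : ((g.map (Ideal.Quotient.mk v.asIdeal)).map θ).eval
        (θ (Ideal.Quotient.mk v.asIdeal r)) = 0 := by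
      rw [← hpoly, eval_mul, ← h5, eval_map, eval₂_at_apply, h6, zero_mul]
    rw [eval_map, eval₂_at_apply] at h7
    exact hroot _ ((map_eq_zero_iff _ hθinj).1 h7)

end Pool.Agent.V11235.SD
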