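import Mathlib

/-! A finitely generated ring that contains given elements of a finite extension. -/

set_option autoImplicit false

namespace Pool.Agent.V11235.SD

open Polynomial

theorem exists_ring {R k L' : Type} [CommRing R] [IsDomain R] [Algebra.FiniteType ℤ R]
    [Field k] [Algebra R k] [IsFractionRing R k] [Field L'] [Algebra k L'] [FiniteDimensional k L']
    (S : Finset L') : ∃ R' : Subalgebra ℤ L', (S : Set L') ⊆ R' ∧
      (∀ r : R, algebraMap k L' (algebraMap R k r) ∈ R') ∧ R'.FG ∧ IsFractionRing R' L' := by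
  classical
  obtain ⟨G, hG⟩ := (inferInstance : Algebra.FiniteType ℤ R).out
  let φ : R →ₐ[ℤ] L' := ((algebraMap k L').comp (algebraMap R k)).toIntAlgHom
  have hφ : ∀ r, φ r = algebraMap k L' (algebraMap R k r) := fun _ => rfl
  let b := Module.finBasis k L'
  let T : Finset L' := S ∪ (G.image φ ∪ Finset.univ.image b)
  have hT : ∀ x ∈ T, x ∈ Algebra.adjoin ℤ (T : Set L') := fun x hx =>
    Algebra.subset_adjoin hx
  have hR : ∀ r : R, algebraMap k L' (algebraMap R k r) ∈ Algebra.adjoin ℤ (T : Set L') := by
    intro r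
    have h1 : φ r ∈ (Algebra.adjoin ℤ (G : Set R)).map φ := ⟨r, by rw [hG]; trivial, rfl⟩
    rw [AlgHom.map_adjoin] at h1
    refine Algebra.adjoin_mono ?_ h1
    rintro _ ⟨x, hx, rfl⟩
    have h2 : φ x ∈ T := by
      simp only [T, Finset.mem_union, Finset.mem_image]
      right; left
      exact ⟨x, hx, rfl⟩
    exact h2
  refine ⟨Algebra.adjoin ℤ (T : Set L'), ?_, hR, Subalgebra.fg_adjoin_finset T, ?_⟩
  · intro x hx
    apply hT
    simp only [T, Finset.mem_union]
    left
    exact hx
  · have hfaith : FaithfulSMul (Algebra.adjoin ℤ (T : Set L')) L' := inferInstance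
    refine IsFractionRing.of_field _ _ fun z => ?_
    have h1 : ∀ z : L', z ∈ Subfield.closure ((Algebra.adjoin ℤ (T : Set L') : Subalgebra ℤ L') :
        Set L') := by
      intro z
      rw [← b.sum_repr z]
      refine sum_mem fun i _ => ?_
      rw [Algebra.smul_def]
      refine mul_mem ?_ ?_
      · obtain ⟨x, y, hy, hxy⟩ := IsFractionRing.div_surjective (A := R) (b.repr z i)
        rw [← hxy, map_div₀]
        exact div_mem (Subfield.subset_closure (hR x)) (Subfield.subset_closure (hR y))
      · apply Subfield.subset_closure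
        apply hT
        simp only [T, Finset.mem_union, Finset.mem_image]
        right; right
        exact ⟨i, Finset.mem_univ _, rfl⟩
    obtain ⟨x, hx, y, hy, hxy⟩ := Subfield.mem_closure_iff.1 (h1 z)
    have h2 : ∀ x, x ∈ Subring.closure ((Algebra.adjoin ℤ (T : Set L') : Subalgebra ℤ L') :
        Set L') → x ∈ Algebra.adjoin ℤ (T : Set L') := by
      intro x hx
      have h3 : Subring.closure ((Algebra.adjoin ℤ (T : Set L') : Subalgebra ℤ L') : Set L') ≤
          (Algebra.adjoin ℤ (T : Set L')).toSubring :=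
        Subring.closure_le.2 (fun _ h => h)
      exact h3 hx
    exact ⟨⟨x, h2 x hx⟩, ⟨y, h2 y hy⟩, hxy.symm⟩

/-- polynomials with coefficients in a subring -/
theorem exists_lift {A B : Type} [CommRing A] [CommRing B] (i : A →+* B) (q : B[X])
    (h : ∀ j, q.coeff j ∈ i.range) : ∃ q' : A[X], q'.map i = q := by
  have h1 : q ∈ Polynomial.lifts i := by
    rw [Polynomial.lifts_iff_coeff_lifts]
    intro j
    obtain ⟨x, hx⟩ := h j
    exact ⟨x, hx⟩
  obtain ⟨f, hf⟩ := (Polynomial.mem_lifts _).1 h1
  exact ⟨f, hf⟩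

end Pool.Agent.V11235.SD
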