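import Pool.Agent.W858.SG.Extend
import Mathlib

/-! Almost all primes of prime norm are unramified. -/

set_option autoImplicit false

namespace Pool.Agent.V11235.SD

open NumberField IsDedekindDomain Pool.Agent.W858.SG

theorem AE_unram (L : Type) [Field L] [NumberField L] :
    AE fun v : HeightOneSpectrum (𝓞 L) => ∀ p : ℕ, p.Prime → (p : 𝓞 L) ∉ v.asIdeal ^ 2 := by
  classical
  have h0 : differentIdeal ℤ (𝓞 L) ≠ ⊥ := differentIdeal_ne_bot
  obtain ⟨N, hN, hN0⟩ := Submodule.exists_mem_ne_zero_of_ne_bot h0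
  refine ⟨N, hN0, fun v hv p hp hpv => ?_⟩
  apply hv
  have hpm : (Ideal.span {(p : ℤ)}).IsMaximal :=
    PrincipalIdealRing.isMaximal_of_irreducible (Nat.prime_iff_prime_int.1 hp).irreducible
  have hp0 : Ideal.span {(p : ℤ)} ≠ ⊥ := by
    rw [Ne, Ideal.span_singleton_eq_bot]
    exact_mod_cast hp.ne_zero
  have h1 : v.asIdeal ^ 2 ∣ (Ideal.span {(p : ℤ)}).map (algebraMap ℤ (𝓞 L)) := by
    rw [Ideal.dvd_iff_le, Ideal.map_span, Set.image_singleton, Ideal.span_singleton_le_iff_mem,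
      eq_intCast, Int.cast_natCast]
    exact hpv
  have h2 := pow_sub_one_dvd_differentIdeal ℤ v.asIdeal 2 hp0 h1
  rw [Nat.add_one_sub_one, pow_one] at h2
  exact Ideal.le_of_dvd h2 hN

end Pool.Agent.V11235.SD
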