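import Pool.Agent.V11235.SC.Prim
import Pool.Agent.V11235.SD.Cnt
import Pool.Agent.V11235.SD.Unr
import Pool.Agent.V11235.SD.Chi
import Pool.Agent.V11235.SD.Pkg
import Pool.Agent.V11235.SD.Ring
import Pool.Agent.V11235.SD.Red
import Pool.Agent.V11235.SD.Loc

/-! Density of the fibres over rational points without sections. -/

set_option autoImplicit false

namespace Pool.Agent.V11235.SD

open IsDedekindDomain NumberField WithZero Polynomial Pool.Agent.Y157.PS Pool.Agent.Y141.PS
open Pool.Agent.W858.SF Pool.Agent.W858.SG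

/-- the valuation of a number close to `x` -/
theorem close_val {L : Type} [Field L] [NumberField L] (v : HeightOneSpectrum (𝓞 L))
    (y : v.adicCompletion L) (x : L) (m : ℤ) (hm : -2 < m)
    (h : vv v (y - algebraMap L (v.adicCompletion L) x) ≤ exp (-2))
    (hx : v.valuation L x = exp m) : vv v y = exp m := by
  have h1 : y = (y - algebraMap L (v.adicCompletion L) x) +
    algebraMap L (v.adicCompletion L) x := by ring
  have h2 : vv v (y - algebraMap L (v.adicCompletion L) x) <
      vv v (algebraMap L (v.adicCompletion L) x) := by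
    rw [vv_algebraMap, hx]
    refine h.trans_lt ?_
    rwa [exp_lt_exp]
  rw [h1, Valuation.map_add_eq_of_lt_right _ h2, vv_algebraMap, hx]

theorem density_pairs {R k L' : Type} [CommRing R] [IsDomain R] [CharZero R]
    [Algebra.FiniteType ℤ R] [Field k] [Algebra R k] [IsFractionRing R k] [Field L'] [Algebra k L']
    [FiniteDimensional k L'] (g : k[X]) (F : k[X][X]) (h3 : 3 ≤ F.natDegree) (θ : L')
    (hg : g ≠ 0)
    (hlc : F.leadingCoeff.eval₂ (algebraMap k L') θ ≠ 0)
    (hsep : (F.map (eval₂RingHom (algebraMap k L') θ)).Separable)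
    (hσ : ∃ σ : AlgebraicClosure L' ≃ₐ[L'] AlgebraicClosure L', ∀ x : AlgebraicClosure L',
      aeval x (F.map (eval₂RingHom (algebraMap k L') θ)) = 0 → σ x ≠ x)
    (ε : ℝ) (hε : 0 < ε) :
    ∃ I : Ideal R, Finite (R ⧸ I) ∧
      (Set.ncard ((fun x : R × R => (Ideal.Quotient.mk I x.1, Ideal.Quotient.mk I x.2)) ''
        {x | ¬ ((F.map (evalRingHom (algebraMap R k x.1 / algebraMap R k x.2))).natDegree =
            F.natDegree ∧ ∀ ℓ : ℕ, ℓ.Prime → ℓ ∣ F.natDegree →
          ¬ ℓ ∣ (g.map (algebraMap k L')).rootMultiplicity θ →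
          FineP ℓ (g.eval (algebraMap R k x.1 / algebraMap R k x.2))
            (F.map (evalRingHom (algebraMap R k x.1 / algebraMap R k x.2))))}) : ℝ) ≤
        ε * (Nat.card (R ⧸ I) : ℝ) ^ 2 := by
  classical
  have hFUN : S_FUN := Pool.Agent.Y674.PS.funct Pool.Agent.Y157.PS.a_inrt
  have hczk : CharZero k := charZero_of_injective_algebraMap (IsFractionRing.injective R k)
  have hczL' : CharZero L' := charZero_of_injective_algebraMap (algebraMap k L').injective
  -- the other factor of `g`
  have hgL0 : g.map (algebraMap k L') ≠ 0 := (Polynomial.map_ne_zero_iff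
    (algebraMap k L').injective).2 hg
  obtain ⟨q, hq, hqθ⟩ := exists_eq_pow_rootMultiplicity_mul_and_not_dvd _ hgL0 θ
  set e := (g.map (algebraMap k L')).rootMultiplicity θ with he
  rw [dvd_iff_isRoot, IsRoot.def] at hqθ
  -- the ring `R'`
  obtain ⟨R', hS, hRR', hfg, hfrac⟩ := exists_ring (R := R) (k := k) (L' := L')
    (insert θ ((q.support.image fun i => q.coeff i) ∪
      (F.support.biUnion fun i => (F.coeff i).support.image fun j =>
        algebraMap k L' ((F.coeff i).coeff j))))
  have hft : Algebra.FiniteType ℤ R' := R'.fg_iff_finiteType.1 hfg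
  have hinj' : Function.Injective (algebraMap R' L') := Subtype.val_injective
  have hθR : θ ∈ R' := hS (by simp)
  have hgR : ∀ j, q.coeff j ∈ R' := by
    intro j
    by_cases hj : q.coeff j = 0
    · rw [hj]
      exact zero_mem _
    · apply hS
      simp only [Finset.coe_insert, Set.mem_insert_iff, Finset.mem_coe, Finset.mem_union,
        Finset.mem_image, mem_support_iff]
      right; left
      exact ⟨j, hj, rfl⟩
  have hFR : ∀ i j, algebraMap k L' ((F.coeff i).coeff j) ∈ R' := by
    intro i j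
    by_cases hj : (F.coeff i).coeff j = 0
    · rw [hj, map_zero]
      exact zero_mem _
    · have hi : F.coeff i ≠ 0 := by
        intro h0
        rw [h0, coeff_zero] at hj
        exact hj rfl
      apply hS
      simp only [Finset.coe_insert, Set.mem_insert_iff, Finset.mem_coe, Finset.mem_union,
        Finset.mem_biUnion, Finset.mem_image, mem_support_iff]
      right; right
      exact ⟨i, hi, j, hj, rfl⟩
  let θ' : R' := ⟨θ, hθR⟩
  let ι : R →+* R' :=
    { toFun := fun r => ⟨algebraMap k L' (algebraMap R k r), hRR' r⟩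
      map_one' := Subtype.ext (by simp)
      map_mul' := fun y z => Subtype.ext (by simp)
      map_zero' := Subtype.ext (by simp)
      map_add' := fun y z => Subtype.ext (by simp) }
  have hι : ∀ r, algebraMap R' L' (ι r) = algebraMap k L' (algebraMap R k r) := fun _ => rfl
  obtain ⟨g', hg1⟩ := exists_lift (algebraMap R' L') q (fun j => ⟨⟨_, hgR j⟩, rfl⟩)
  obtain ⟨F', hF1⟩ := exists_lift (mapRingHom (algebraMap R' L'))
    (F.map (mapRingHom (algebraMap k L'))) (fun i => by
      rw [coeff_map]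
      obtain ⟨q, hq⟩ := exists_lift (algebraMap R' L') ((F.coeff i).map (algebraMap k L'))
        (fun j => by
          rw [coeff_map]
          exact ⟨⟨_, hFR i j⟩, rfl⟩)
      exact ⟨q, hq⟩)
  set dθ : R' := g'.eval θ' with hdθ
  have hdθ0 : dθ ≠ 0 := by
    intro h0
    apply hqθ
    have h1 : algebraMap R' L' (g'.eval θ') = (g'.map (algebraMap R' L')).eval θ := by
      rw [← eval_map_apply]
      rfl
    rw [← hg1, ← h1, ← hdθ, h0, map_zero]
  -- the polynomial `F (θ, x)`
  set F1 := F'.map (evalRingHom θ') with hF1def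
  have hF1L : F1.map (algebraMap R' L') = F.map (eval₂RingHom (algebraMap k L') θ) := by
    have h1 : (algebraMap R' L').comp (evalRingHom θ') =
        (evalRingHom θ).comp (mapRingHom (algebraMap R' L')) := by
      apply Polynomial.ringHom_ext
      · intro r
        simp
      · simp only [RingHom.comp_apply, coe_mapRingHom, map_X, coe_evalRingHom, eval_X]
        rfl
    have h2 : (evalRingHom θ).comp (mapRingHom (algebraMap k L')) =
        eval₂RingHom (algebraMap k L') θ := by
      apply Polynomial.ringHom_ext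
      · intro r
        simp
      · simp
    rw [hF1def, Polynomial.map_map, h1, ← Polynomial.map_map, hF1, Polynomial.map_map, h2]
  have hdF1 : F1.natDegree = F.natDegree := by
    rw [← natDegree_map_eq_of_injective hinj' F1, hF1L]
    exact natDegree_map_of_leadingCoeff_ne_zero _ hlc
  have hF10 : F1 ≠ 0 := by
    intro h0
    rw [h0, natDegree_zero] at hdF1
    omega
  have hlc1 : F1.leadingCoeff ≠ 0 := leadingCoeff_ne_zero.2 hF10
  obtain ⟨M, _, _, P, hU, hsepP, hσP, hemb⟩ := pkg (R := R') (k := L') {F1.leadingCoeff, dθ} (by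
    intro u hu
    simp only [Finset.mem_insert, Finset.mem_singleton] at hu
    rcases hu with rfl | rfl
    · exact hlc1
    · exact hdθ0) F1 (by rw [hF1L]; exact hsep) (by rw [hF1L]; exact hσ)
  obtain ⟨N, hN0, hN⟩ := (hemb.and (AE.unit (P dθ) (hU dθ (by simp)))).and (AE_unram M)
  -- the polynomial over the integers of `M`
  obtain ⟨c, hc, hcf⟩ := IsLocalization.integerNormalization_spec (nonZeroDivisors (𝓞 M)) (F1.map P)
  set h := IsLocalization.integerNormalization (nonZeroDivisors (𝓞 M)) (F1.map P) with hh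
  have hc0 : c ≠ 0 := nonZeroDivisors.ne_zero hc
  have hinj : Function.Injective (algebraMap (𝓞 M) M) := IsFractionRing.injective (𝓞 M) M
  have hcK : algebraMap (𝓞 M) M c ≠ 0 := by
    rw [Ne, map_eq_zero_iff _ hinj]
    exact hc0
  have hgf : h.map (algebraMap (𝓞 M) M) = C (algebraMap (𝓞 M) M c) * F1.map P := by
    rw [hcf]
    ext i
    rw [coeff_smul, coeff_C_mul, Algebra.smul_def]
  have hdegP : (F1.map P).natDegree = F1.natDegree :=
    natDegree_map_of_leadingCoeff_ne_zero P (hU _ (by simp))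
  have hdeg : h.natDegree = F1.natDegree := by
    rw [← natDegree_map_eq_of_injective hinj h, hgf, natDegree_C_mul hcK, hdegP]
  have hgs : (h.map (algebraMap (𝓞 M) M)).Separable := by
    rw [hgf]
    exact Separable.unit_mul (isUnit_C.2 hcK.isUnit) hsepP
  have hgσ : ∃ σ : AlgebraicClosure M ≃ₐ[M] AlgebraicClosure M,
      ∀ θ : AlgebraicClosure M, aeval θ (h.map (algebraMap (𝓞 M) M)) = 0 → σ θ ≠ θ := by
    obtain ⟨σ, hσ⟩ := hσP
    refine ⟨σ, fun θ hθ => hσ θ ?_⟩
    rw [hgf, map_mul, aeval_C] at hθ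
    exact (mul_eq_zero.1 hθ).resolve_left ((_root_.map_ne_zero _).2 hcK)
  have hdL : (F.natDegree : 𝓞 M) ≠ 0 := by
    rw [Nat.cast_ne_zero]
    omega
  obtain ⟨S, hSp, hSd, hSv⟩ := Pool.Agent.V11235.SC.prim M h (N * (F.natDegree : 𝓞 M))
    (mul_ne_zero hN0 hdL) hgs hgσ
  obtain ⟨T, hTS, hTε⟩ := small_prod S hSp hSd ε hε
  have hv : ∀ p : T, ∃ v : HeightOneSpectrum (𝓞 M),
      Pool.Agent.V11235.SC.Props h (N * (F.natDegree : 𝓞 M)) v ∧
        Ideal.absNorm v.asIdeal = p.1 := fun p => hSv p.1 (hTS p.1 p.2)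
  choose v hvP hvn using hv
  have hTp : ∀ p ∈ T, p.Prime := fun p hp => hSp p (hTS p hp)
  have hNv : ∀ p : T, N ∉ (v p).asIdeal := fun p h0 =>
    (hvP p).1 (Ideal.mul_mem_right _ _ h0)
  have hdv : ∀ p : T, (F.natDegree : 𝓞 M) ∉ (v p).asIdeal := fun p h0 =>
    (hvP p).1 (Ideal.mul_mem_left _ _ h0)
  have hχ : ∀ p : T, ∃ χ : R' →+* ZMod (p.1 ^ 2), ∀ (r : R') (n : ℕ), χ r = n →
      (v p).valuation M (P r - n) ≤ exp (-2) := fun p =>
    exists_chi (v p) p.1 (hTp p.1 p.2) (hvn p) ((hN (v p) (hNv p)).2 p.1 (hTp p.1 p.2)) P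
      (hN (v p) (hNv p)).1.1.1
  choose χ hχ using hχ
  obtain ⟨I, hI, hIE⟩ := count_pairs T hTp (fun p => (χ p).comp ι) (fun p => χ p θ')
    {x : R × R | ¬ ((F.map (evalRingHom (algebraMap R k x.1 / algebraMap R k x.2))).natDegree =
            F.natDegree ∧ ∀ ℓ : ℕ, ℓ.Prime → ℓ ∣ F.natDegree →
          ¬ ℓ ∣ (g.map (algebraMap k L')).rootMultiplicity θ →
          FineP ℓ (g.eval (algebraMap R k x.1 / algebraMap R k x.2))
            (F.map (evalRingHom (algebraMap R k x.1 / algebraMap R k x.2))))} (by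
      rintro ⟨a, b⟩ hbad p hgood
      apply hbad
      obtain ⟨⟨⟨hPint, ψ, hψ⟩, hunit⟩, hur⟩ := hN (v p) (hNv p)
      have hur := hur p.1 (hTp p.1 p.2)
      obtain ⟨hVb, hVab⟩ := good_val (v p) p.1 (hTp p.1 p.2) (hvn p) hur P (χ p) (hχ p) θ' (ι a)
        (ι b) hgood
      obtain ⟨-, -, hlcv, hsv, hrv⟩ := hvP p
      obtain ⟨gB, hgB, hgBd, hgBu, hgBs, hgBr⟩ := red_facts (v p) hinj' P ψ hPint hψ F1 c h hgf
        hdeg hlcv hsv hrv
      have hfinres := finite_residue (v p)
      have hexp0 : (1 : ℤᵐ⁰) = exp 0 := exp_zero.symm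
      obtain ⟨hres1, hres2⟩ := loc hFUN (L' := L') hinj' (vv (v p)) ψ F g F' g' e θ' hF1
        (by rw [hg1]; exact hq) (by
          rw [hexp0]
          refine close_val (v p) _ (P dθ) 0 (by norm_num) (hψ _) ?_
          rw [hunit, hexp0]) (by
          intro r
          have h1 : ψ (algebraMap R' L' r) = (ψ (algebraMap R' L' r) -
            algebraMap M ((v p).adicCompletion M) (P r)) +
            algebraMap M ((v p).adicCompletion M) (P r) := by ring
          rw [h1]
          refine (Valuation.map_add _ _ _).trans (max_le ((hψ r).trans ?_) ?_)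
          · rw [hexp0, exp_le_exp]
            omega
          · rw [vv_algebraMap]
            exact hPint r) gB hgB hgBu
        (by rw [hgBd, hdF1]) hgBs hgBr h3 _ _ (ι a) (ι b) (hι a) (hι b) (by
          rw [hexp0]
          refine close_val (v p) _ (P (ι b)) 0 (by norm_num) (hψ _) ?_
          rw [hVb, hexp0])
        (close_val (v p) _ (P (ι a - θ' * ι b)) (-1) (by norm_num) (hψ _) hVab)
      refine ⟨hres1, fun ℓ hℓ hℓd hℓe => hres2 ℓ hℓ ?_ hℓd hℓe⟩
      have h5 : (ℓ : (v p).adicCompletion M) =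
          algebraMap M ((v p).adicCompletion M) (algebraMap (𝓞 M) M ℓ) := by
        rw [map_natCast, map_natCast]
      rw [h5, vv_algebraMap]
      refine (HeightOneSpectrum.valuation_eq_one_iff_notMem (v p)).2 fun h0 => hdv p ?_
      obtain ⟨n, hn⟩ := hℓd
      rw [hn, Nat.cast_mul]
      exact Ideal.mul_mem_right _ _ h0)
  refine ⟨I, hI, hIE.trans ?_⟩
  exact mul_le_mul_of_nonneg_right hTε.le (by positivity)

end Pool.Agent.V11235.SD
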